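import Pool.Agent.helper55.BL.Spec

/-!
# Row `bl:LRG` (MP_143341_co): long closed paths in large 2-connected graphs with few vertices of low degree
-/

set_option autoImplicit false

namespace Pool.Agent.helper55.BL

open Finset
open scoped Classical
open Pool.Agent.helper61.BM (Clo dg)

/-- `c + 2 ≤ 2 ^ c` for `c ≥ 3` -/
theorem LRG_pow (c : ℕ) (hc : 3 ≤ c) : c + 2 ≤ 2 ^ c := by
  induction c, hc using Nat.le_induction with
  | base => norm_num
  | succ n hn ih =>
    rw [pow_succ]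
    omega

/-- the numerical estimate -/
theorem LRG_num (c L : ℕ) (hc : 3 ≤ c) (hL : L = (c - 1) * (c - 1)) :
    ((c + 2 ^ L * (c + 1) + 1) + 1) ^ L ≤ 2 ^ (c ^ 4) := by
  have hL1 : c ≤ L := by
    obtain ⟨d, rfl⟩ : ∃ d, c = d + 3 := ⟨c - 3, by omega⟩
    have e : d + 3 - 1 = d + 2 := by omega
    rw [hL, e]
    nlinarith
  have hL2 : L + c ≤ c ^ 2 := by
    obtain ⟨d, rfl⟩ : ∃ d, c = d + 3 := ⟨c - 3, by omega⟩
    have e : d + 3 - 1 = d + 2 := by omega
    rw [hL, e]
    nlinarith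
  have h1 : c + 2 ≤ 2 ^ c := LRG_pow c hc
  have h2 : (2 : ℕ) ^ c ≤ 2 ^ L := Nat.pow_le_pow_right (by norm_num) hL1
  have h3 : (c + 2 ^ L * (c + 1) + 1) + 1 ≤ 2 ^ (L + c) := by
    calc (c + 2 ^ L * (c + 1) + 1) + 1 = (c + 2) + 2 ^ L * (c + 1) := by ring
      _ ≤ 2 ^ L + 2 ^ L * (c + 1) := by omega
      _ = 2 ^ L * (c + 2) := by ring
      _ ≤ 2 ^ L * 2 ^ c := Nat.mul_le_mul_left _ h1
      _ = 2 ^ (L + c) := (pow_add 2 L c).symm
  calc ((c + 2 ^ L * (c + 1) + 1) + 1) ^ L ≤ (2 ^ (L + c)) ^ L := Nat.pow_le_pow_left h3 L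
    _ = 2 ^ ((L + c) * L) := (pow_mul 2 (L + c) L).symm
    _ ≤ 2 ^ (c ^ 2 * c ^ 2) := by
        apply Nat.pow_le_pow_right (by norm_num)
        exact Nat.mul_le_mul hL2 (by omega)
    _ = 2 ^ (c ^ 4) := by
        congr 1
        ring

/-- `univ` is connected -/
theorem LRG_frag {V : Type} [Fintype V] (G : SimpleGraph V) (hT : Two G) (hV : 3 ≤ Fintype.card V) :
    Frag G ∅ (univ : Finset V) := by
  refine ⟨?_, ?_, ?_, ?_⟩
  · rw [← Finset.card_pos, Finset.card_univ]
    omega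
  · exact Finset.disjoint_empty_left _
  · intro B _ hBn hBu
    obtain ⟨y, hy⟩ : ∃ y, y ∉ B := by
      by_contra hcon
      push Not at hcon
      exact hBu (Finset.eq_univ_iff_forall.mpr hcon)
    by_cases h2 : ∃ x, x ∉ B ∧ x ≠ y
    · obtain ⟨x, hx, hxy⟩ := h2
      obtain ⟨u, hu, v, hv, -, ha⟩ := hT y B hy hBn ⟨x, hx, hxy⟩
      exact ⟨u, hu, v, Finset.mem_univ _, hv, ha⟩
    · push Not at h2
      obtain ⟨x, hx⟩ := hBn
      have hxy : x ≠ y := fun h => hy (h ▸ hx)
      have hz : ∃ z, z ∉ ({y} : Finset V) ∧ z ≠ x := by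
        by_contra hcon
        push Not at hcon
        have hsub : (univ : Finset V) ⊆ {x, y} := by
          intro z _
          by_cases hzy : z = y
          · simp [hzy]
          · have := hcon z (by simpa using hzy)
            simp [this]
        have hle := Finset.card_le_card hsub
        have h2 : ({x, y} : Finset V).card ≤ 2 := Finset.card_le_two
        rw [Finset.card_univ] at hle
        omega
      obtain ⟨u, hu, v, hv, -, ha⟩ := hT x {y} (by simpa using hxy) ⟨y, by simp⟩ hz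
      have huy : u = y := by simpa using hu
      have hvB : v ∈ B := by
        by_contra hvB
        exact hv (by simpa using h2 v hvB)
      exact ⟨v, hvB, u, Finset.mem_univ _, huy ▸ hy, ha.symm⟩
  · intro u _ v _
    exact Or.inl (Finset.mem_univ _)

theorem LRG (hPBD : PBD_stmt) (hCMP : CMP_stmt) (hPIG : PIG_stmt) (hCYM : CYM_stmt) : LRG_stmt := by
  intro V _ G c Z hc hT hZ hdeg hcard
  by_contra hcon
  push Not at hcon
  have hs : ∀ l : List V, Clo G l → l.length ≤ c - 1 := by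
    intro l hl
    have := hcon l hl
    omega
  have hP := hPBD V G (c - 1) hT (by omega) hs
  obtain ⟨L, hL⟩ : ∃ L, L = (c - 1) * (c - 1) := ⟨_, rfl⟩
  have hnum := LRG_num c L hc hL
  have hV : 3 ≤ Fintype.card V := by
    have h1 : c + 2 ≤ 2 ^ c := LRG_pow c hc
    have h2 : (2 : ℕ) ^ c ≤ 2 ^ (c ^ 4) :=
      Nat.pow_le_pow_right (by norm_num) (Nat.le_self_pow (by norm_num) c)
    omega
  have hF := LRG_frag G hT hV
  obtain ⟨r, hr⟩ := hF.ne
  rcases hCMP V G (c + 2 ^ L * (c + 1) + 1) (by omega) L ∅ univ r hF hr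
    (by rw [Finset.card_univ]; exact hnum.trans hcard) with h | h
  · obtain ⟨A', hA', F, hFc, hFr, hFd⟩ := h
    have hA2 : A'.card ≤ L := by simpa using hA'
    have hpow : (2 : ℕ) ^ A'.card ≤ 2 ^ L := Nat.pow_le_pow_right (by norm_num) hA2
    have hmul : 2 ^ A'.card * (c + 1) ≤ 2 ^ L * (c + 1) := Nat.mul_le_mul_right _ hpow
    obtain ⟨S, -, F', hF', hF'c, hF'p⟩ := hPIG V A' Z F (nbA G A') (c + 1) hFd
      (fun E _ => Finset.filter_subset _ _) (by omega)
    obtain ⟨l, hl, hlen⟩ := hCYM V G A' S F' ((c + 1) / 2) hT (by omega)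
      (fun E hE => ⟨hFr E (hF' hE), (hF'p E hE).1, fun v hv => by
        have hvZ : v ∉ Z := Finset.disjoint_left.mp (hF'p E hE).2 hv
        have := hdeg v hvZ
        omega⟩)
      (fun E hE E' hE' => hFd E (hF' hE) E' (hF' hE')) (by omega)
    have := hcon l hl
    omega
  · obtain ⟨p, hp, -, -⟩ := h
    have := hP L p hp
    omega

end Pool.Agent.helper55.BL
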